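import Pool.Agent.X316.FO.Count

/-!
# MP_f5f7dd_ag, Q1: finite orbits on curves without separated multiples

Let `K` be an algebraically closed field of characteristic `0` and `p ∈ K[x,y]` irreducible, not in
`K[x] ∪ K[y]`. If the field of separated multiples `F(p)` is trivial, then the curve
`C ⊂ ℙ¹ × ℙ¹` defined by `p` has only finitely many finite orbits.

Polynomials in two variables are elements of `K[X][Y]` (the inner variable is `x`, the outer one
is `y`).
-/

set_option autoImplicit false

open Polynomial Polynomial.Bivariate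

namespace Pool.Agent.Results.MP_f5f7dd_ag.FinitelyManyFiniteOrbits

variable {K : Type*} [Field K]

/-! ### The field of separated multiples -/

/-- `⟨p⟩`: the rational functions `q ∈ K(x,y)` whose reduced denominator is not divisible by `p`
and whose reduced numerator is a multiple of `p`. -/
def multiples (p : K[X][Y]) : Set (FractionRing K[X][Y]) :=
  {q | ¬ p ∣ (IsFractionRing.den K[X][Y] q : K[X][Y]) ∧ p ∣ IsFractionRing.num K[X][Y] q}

/-- a rational function `f(x)` seen in `K(x,y)` -/
noncomputable def inX (f : RatFunc K) : FractionRing K[X][Y] :=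
  algebraMap K[X][Y] (FractionRing K[X][Y]) (C f.num) /
    algebraMap K[X][Y] (FractionRing K[X][Y]) (C f.denom)

/-- a rational function `g(y)` seen in `K(x,y)` -/
noncomputable def inY (g : RatFunc K) : FractionRing K[X][Y] :=
  algebraMap K[X][Y] (FractionRing K[X][Y]) (g.num.map C) /
    algebraMap K[X][Y] (FractionRing K[X][Y]) (g.denom.map C)

/-- the field of separated multiples `F(p)` (as a set of pairs) -/
def sepMultiples (p : K[X][Y]) : Set (RatFunc K × RatFunc K) :=
  {fg | inX fg.1 - inY fg.2 ∈ multiples p}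

/-- `F(p)` is trivial: it consists of the pairs `(c, c)` with `c` constant. -/
def IsTrivial (p : K[X][Y]) : Prop :=
  ∀ fg ∈ sepMultiples p, ∃ c : K, fg = (RatFunc.C c, RatFunc.C c)

/-! ### The curve and its orbits -/

/-- the degree of `p` in `x` (the degree in `y` is `p.natDegree`) -/
noncomputable def degX (p : K[X][Y]) : ℕ := p.support.sup fun j => (p.coeff j).natDegree

/-- the value of the bihomogenization `x₀^{deg_x p} y₀^{deg_y p} p(x₁/x₀, y₁/y₀)` at
`x = (x₀, x₁)`, `y = (y₀, y₁)` -/
noncomputable def bihom (p : K[X][Y]) (x y : Fin 2 → K) : K :=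
  ∑ j ∈ Finset.range (p.natDegree + 1), ∑ i ∈ Finset.range (degX p + 1),
    (p.coeff j).coeff i * (x 0 ^ (degX p - i) * x 1 ^ i) * (y 0 ^ (p.natDegree - j) * y 1 ^ j)

/-- the curve `C ⊂ ℙ¹ × ℙ¹` -/
def Curve (p : K[X][Y]) : Set (Projectivization K (Fin 2 → K) × Projectivization K (Fin 2 → K)) :=
  {P | bihom p P.1.rep P.2.rep = 0}

/-- two points of the curve with the same first or the same second coordinate -/
def Adj (p : K[X][Y]) (P Q : Curve p) : Prop := P.1.1 = Q.1.1 ∨ P.1.2 = Q.1.2

/-- the orbit of a point: the points reachable by finitely many moves -/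
def orbit (p : K[X][Y]) (P : Curve p) : Set (Curve p) := {Q | Relation.ReflTransGen (Adj p) P Q}

/-! ### Auxiliary results: bihomogenization -/

theorem coeff_coeff_swap (p : K[X][Y]) (i j : ℕ) :
    ((swap p).coeff i).coeff j = (p.coeff j).coeff i := by
  induction p using Polynomial.induction_on' with
  | add p q hp hq => simp only [map_add, coeff_add, hp, hq]
  | monomial n f =>
    induction f using Polynomial.induction_on' with
    | add f g hf hg => simp only [map_add, coeff_add, hf, hg]
    | monomial m r =>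
      rw [swap_monomial_monomial]
      simp only [coeff_monomial]
      split_ifs <;> simp [coeff_monomial, *]

theorem le_degX (p : K[X][Y]) (i j : ℕ) (h : (p.coeff j).coeff i ≠ 0) : i ≤ degX p := by
  have hj : j ∈ p.support := by
    rw [mem_support_iff]
    intro h0
    rw [h0, coeff_zero] at h
    exact h rfl
  exact (le_natDegree_of_ne_zero h).trans
    (Finset.le_sup (f := fun j => (p.coeff j).natDegree) hj)

theorem natDegree_swap (p : K[X][Y]) : (swap p).natDegree = degX p := by
  apply le_antisymm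
  · rw [natDegree_le_iff_coeff_eq_zero]
    intro i hi
    ext j
    rw [coeff_coeff_swap, coeff_zero]
    by_contra h
    exact absurd (le_degX p i j h) (by omega)
  · refine Finset.sup_le fun j hj => ?_
    rw [mem_support_iff] at hj
    apply le_natDegree_of_ne_zero
    intro h
    have h1 := congrArg (fun q => q.coeff j) h
    simp only [coeff_coeff_swap, coeff_zero] at h1
    exact hj (leadingCoeff_eq_zero.1 h1)

theorem bihom_smul (p : K[X][Y]) (c d : K) (x y : Fin 2 → K) :
    bihom p (c • x) (d • y) = c ^ degX p * d ^ p.natDegree * bihom p x y := by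
  rw [bihom, bihom, Finset.mul_sum]
  refine Finset.sum_congr rfl fun j hj => ?_
  rw [Finset.mul_sum]
  refine Finset.sum_congr rfl fun i hi => ?_
  rw [Finset.mem_range] at hi hj
  simp only [Pi.smul_apply, smul_eq_mul, mul_pow]
  have h1 : c ^ degX p = c ^ (degX p - i) * c ^ i := by rw [← pow_add]; congr 1; omega
  have h2 : d ^ p.natDegree = d ^ (p.natDegree - j) * d ^ j := by rw [← pow_add]; congr 1; omega
  rw [h1, h2]
  ring

theorem bihom_affine (p : K[X][Y]) (a b : K) :
    bihom p ![1, a] ![1, b] = p.evalEval a b := by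
  have h1 : p.evalEval a b = ∑ j ∈ Finset.range (p.natDegree + 1), (p.coeff j).eval a * b ^ j := by
    rw [evalEval, eval_eq_sum_range (p := p), eval_finsetSum]
    refine Finset.sum_congr rfl fun j _ => ?_
    rw [eval_mul, eval_pow, eval_C]
  rw [h1, bihom]
  refine Finset.sum_congr rfl fun j hj => ?_
  have h2 : (p.coeff j).natDegree < degX p + 1 := by
    by_cases h0 : p.coeff j = 0
    · rw [h0, natDegree_zero]; omega
    · have := le_degX p (p.coeff j).natDegree j (by
        rw [coeff_natDegree]; exact leadingCoeff_ne_zero.2 h0)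
      omega
  rw [eval_eq_sum_range' h2, Finset.sum_mul]
  refine Finset.sum_congr rfl fun i _ => ?_
  simp

theorem bihom_infY (p : K[X][Y]) (a : K) :
    bihom p ![1, a] ![0, 1] = p.leadingCoeff.eval a := by
  rw [bihom, Finset.sum_eq_single_of_mem p.natDegree (Finset.self_mem_range_succ _)]
  · have h2 : (p.leadingCoeff).natDegree < degX p + 1 := by
      by_cases h0 : p.leadingCoeff = 0
      · rw [h0, natDegree_zero]; omega
      · have := le_degX p (p.leadingCoeff).natDegree p.natDegree (by
          show p.leadingCoeff.coeff _ ≠ 0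
          rw [coeff_natDegree]; exact leadingCoeff_ne_zero.2 h0)
        omega
    rw [eval_eq_sum_range' h2]
    refine Finset.sum_congr rfl fun i _ => ?_
    simp
  · intro j hj hjn
    refine Finset.sum_eq_zero fun i _ => ?_
    rw [Finset.mem_range] at hj
    have : p.natDegree - j ≠ 0 := by omega
    simp [this]

theorem bihom_swap (p : K[X][Y]) (x y : Fin 2 → K) : bihom (swap p) y x = bihom p x y := by
  have h1 : degX (swap p) = p.natDegree := by rw [← natDegree_swap, swap_swap_apply]
  rw [bihom, bihom, natDegree_swap, h1, Finset.sum_comm]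
  refine Finset.sum_congr rfl fun j _ => Finset.sum_congr rfl fun i _ => ?_
  rw [coeff_coeff_swap]
  ring

/-! ### Auxiliary results: points of the projective line -/

/-- the point `(1 : a)` -/
noncomputable def pt (a : K) : Projectivization K (Fin 2 → K) :=
  Projectivization.mk K ![1, a] (fun h => by have := congrFun h 0; simp at this)

/-- the point `(0 : 1)` -/
noncomputable def inf (K : Type*) [Field K] : Projectivization K (Fin 2 → K) :=
  Projectivization.mk K ![0, 1] (fun h => by have := congrFun h 1; simp at this)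

theorem pt_or_inf (P : Projectivization K (Fin 2 → K)) : P = inf K ∨ ∃ a, P = pt a := by
  induction P using Projectivization.ind with
  | h v hv =>
    by_cases h0 : v 0 = 0
    · left
      rw [inf, Projectivization.mk_eq_mk_iff']
      refine ⟨v 1, ?_⟩
      funext i
      fin_cases i
      · simp [h0]
      · simp
    · right
      refine ⟨v 1 / v 0, ?_⟩
      rw [pt, Projectivization.mk_eq_mk_iff']
      refine ⟨v 0, ?_⟩
      funext i
      fin_cases i
      · simp
      · simp
        field_simp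

theorem pt_injective : Function.Injective (pt (K := K)) := by
  intro a b h
  rw [pt, pt, Projectivization.mk_eq_mk_iff'] at h
  obtain ⟨c, hc⟩ := h
  have h0 := congrFun hc 0
  have h1 := congrFun hc 1
  simp at h0 h1
  rw [← h1, h0, one_mul]

theorem mk_mem_iff (p : K[X][Y]) (x y : Fin 2 → K) (hx : x ≠ 0) (hy : y ≠ 0) :
    (Projectivization.mk K x hx, Projectivization.mk K y hy) ∈ Curve p ↔ bihom p x y = 0 := by
  obtain ⟨c, hc⟩ := Projectivization.exists_smul_eq_mk_rep K x hx
  obtain ⟨d, hd⟩ := Projectivization.exists_smul_eq_mk_rep K y hy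
  show bihom p _ _ = 0 ↔ _
  simp only
  rw [← hc, ← hd, Units.smul_def, Units.smul_def, bihom_smul, mul_eq_zero, or_iff_right]
  exact mul_ne_zero (pow_ne_zero _ c.ne_zero) (pow_ne_zero _ d.ne_zero)

theorem pt_pt_mem (p : K[X][Y]) (a b : K) : (pt a, pt b) ∈ Curve p ↔ p.evalEval a b = 0 := by
  rw [pt, pt, mk_mem_iff, bihom_affine]

theorem pt_inf_mem (p : K[X][Y]) (a : K) : (pt a, inf K) ∈ Curve p ↔ p.leadingCoeff.eval a = 0 := by
  rw [pt, inf, mk_mem_iff, bihom_infY]

theorem inf_pt_mem (p : K[X][Y]) (b : K) :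
    (inf K, pt b) ∈ Curve p ↔ (swap p).leadingCoeff.eval b = 0 := by
  rw [pt, inf, mk_mem_iff, ← bihom_swap, bihom_infY]

/-! ### Auxiliary results: orbits -/

theorem adj_symm (p : K[X][Y]) {P Q : Curve p} (h : Adj p P Q) : Adj p Q P := by
  rcases h with h | h
  · exact Or.inl h.symm
  · exact Or.inr h.symm

theorem reach_symm (p : K[X][Y]) {P Q : Curve p} (h : Relation.ReflTransGen (Adj p) P Q) :
    Relation.ReflTransGen (Adj p) Q P := by
  induction h with
  | refl => exact Relation.ReflTransGen.refl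
  | tail _ hbc ih => exact Relation.ReflTransGen.head (adj_symm p hbc) ih

theorem orbit_eq (p : K[X][Y]) {P Q : Curve p} (h : Q ∈ orbit p P) : orbit p Q = orbit p P := by
  ext R
  exact ⟨fun h' => Relation.ReflTransGen.trans h h', fun h' =>
    Relation.ReflTransGen.trans (reach_symm p h) h'⟩

theorem orbit_closed (p : K[X][Y]) {P Q R : Curve p} (h : Q ∈ orbit p P) (h' : Adj p Q R) :
    R ∈ orbit p P := Relation.ReflTransGen.tail h h'

open Pool.Agent.X316.FO in
/-- the coordinate sets of a finite orbit all of whose points are finite and unramified -/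
theorem good_orbit (p : K[X][Y]) (P0 : Curve p) (hfin : (orbit p P0).Finite)
    (h1 : ∀ P ∈ orbit p P0, P.1.1 ≠ inf K ∧ P.1.2 ≠ inf K)
    (h2 : ∀ a b, ∀ h : (pt a, pt b) ∈ Curve p, (⟨(pt a, pt b), h⟩ : Curve p) ∈ orbit p P0 →
      (atX a p).derivative.eval b ≠ 0 ∧ (atY b p).derivative.eval a ≠ 0) :
    ∃ A B : Finset K, (∀ a, a ∈ A ↔ ∃ P ∈ orbit p P0, P.1.1 = pt a) ∧
      (∀ b, b ∈ B ↔ ∃ P ∈ orbit p P0, P.1.2 = pt b) ∧ Half p A B ∧ Half (swap p) B A ∧
      A.Nonempty ∧ B.Nonempty := by
  have hA : {a : K | ∃ P ∈ orbit p P0, P.1.1 = pt a}.Finite := by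
    refine ((hfin.image fun P => P.1.1).preimage (f := pt) pt_injective.injOn).subset ?_
    rintro a ⟨P, hP, h⟩
    exact ⟨P, hP, h⟩
  have hB : {b : K | ∃ P ∈ orbit p P0, P.1.2 = pt b}.Finite := by
    refine ((hfin.image fun P => P.1.2).preimage (f := pt) pt_injective.injOn).subset ?_
    rintro a ⟨P, hP, h⟩
    exact ⟨P, hP, h⟩
  have hself : P0 ∈ orbit p P0 := Relation.ReflTransGen.refl
  refine ⟨hA.toFinset, hB.toFinset, fun a => hA.mem_toFinset, fun b => hB.mem_toFinset, ?_, ?_,
    ?_, ?_⟩
  · refine ⟨?_, ?_, ?_⟩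
    · intro a ha h
      obtain ⟨P, hP, hPa⟩ := hA.mem_toFinset.1 ha
      have hm := (pt_inf_mem p a).2 h
      exact (h1 ⟨_, hm⟩ (orbit_closed p hP (Or.inl hPa))).2 rfl
    · intro a ha b hab
      obtain ⟨P, hP, hPa⟩ := hA.mem_toFinset.1 ha
      have hm := (pt_pt_mem p a b).2 hab
      exact hB.mem_toFinset.2 ⟨⟨_, hm⟩, orbit_closed p hP (Or.inl hPa), rfl⟩
    · intro a ha b hab
      obtain ⟨P, hP, hPa⟩ := hA.mem_toFinset.1 ha
      have hm := (pt_pt_mem p a b).2 hab
      exact h2 a b hm (orbit_closed p hP (Or.inl hPa))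
  · refine ⟨?_, ?_, ?_⟩
    · intro b hb h
      obtain ⟨P, hP, hPb⟩ := hB.mem_toFinset.1 hb
      have hm := (inf_pt_mem p b).2 h
      exact (h1 ⟨_, hm⟩ (orbit_closed p hP (Or.inr hPb))).1 rfl
    · intro b hb a hab
      rw [evalEval_swap] at hab
      obtain ⟨P, hP, hPb⟩ := hB.mem_toFinset.1 hb
      have hm := (pt_pt_mem p a b).2 hab
      exact hA.mem_toFinset.2 ⟨⟨_, hm⟩, orbit_closed p hP (Or.inr hPb), rfl⟩
    · intro b hb a hab
      rw [evalEval_swap] at hab
      obtain ⟨P, hP, hPb⟩ := hB.mem_toFinset.1 hb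
      have hm := (pt_pt_mem p a b).2 hab
      rw [atX_swap, atY_swap]
      exact (h2 a b hm (orbit_closed p hP (Or.inr hPb))).symm
  · rcases pt_or_inf P0.1.1 with h | ⟨a, ha⟩
    · exact absurd h (h1 P0 hself).1
    · exact ⟨a, hA.mem_toFinset.2 ⟨P0, hself, ha⟩⟩
  · rcases pt_or_inf P0.1.2 with h | ⟨b, hb⟩
    · exact absurd h (h1 P0 hself).2
    · exact ⟨b, hB.mem_toFinset.2 ⟨P0, hself, hb⟩⟩

/-! ### Auxiliary results: separated multiples -/

theorem inX_div (N D : K[X]) (hD : D ≠ 0) :
    inX (algebraMap K[X] (RatFunc K) N / algebraMap K[X] (RatFunc K) D) =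
      algebraMap K[X][Y] (FractionRing K[X][Y]) (C N) /
        algebraMap K[X][Y] (FractionRing K[X][Y]) (C D) := by
  have hinj := IsFractionRing.injective K[X][Y] (FractionRing K[X][Y])
  set f : RatFunc K := algebraMap K[X] (RatFunc K) N / algebraMap K[X] (RatFunc K) D with hf
  have h := (RatFunc.num_mul_eq_mul_denom_iff (x := f) hD).2 hf
  rw [inX, div_eq_div_iff]
  · simp only [← map_mul, h]
  · rw [Ne, map_eq_zero_iff _ hinj, C_eq_zero]
    exact RatFunc.denom_ne_zero f
  · rw [Ne, map_eq_zero_iff _ hinj, C_eq_zero]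
    exact hD

theorem inY_div (N D : K[X]) (hD : D ≠ 0) :
    inY (algebraMap K[X] (RatFunc K) N / algebraMap K[X] (RatFunc K) D) =
      algebraMap K[X][Y] (FractionRing K[X][Y]) (N.map C) /
        algebraMap K[X][Y] (FractionRing K[X][Y]) (D.map C) := by
  have hinj := IsFractionRing.injective K[X][Y] (FractionRing K[X][Y])
  set f : RatFunc K := algebraMap K[X] (RatFunc K) N / algebraMap K[X] (RatFunc K) D with hf
  have h := (RatFunc.num_mul_eq_mul_denom_iff (x := f) hD).2 hf
  rw [inY, div_eq_div_iff, ← map_mul, ← map_mul, ← Polynomial.map_mul, ← Polynomial.map_mul, h]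
  · rw [Ne, map_eq_zero_iff _ hinj, Polynomial.map_eq_zero_iff C_injective]
    exact RatFunc.denom_ne_zero f
  · rw [Ne, map_eq_zero_iff _ hinj, Polynomial.map_eq_zero_iff C_injective]
    exact hD

theorem mem_multiples (p : K[X][Y]) (hp : Irreducible p) (a b : K[X][Y]) (ha : p ∣ a)
    (hb : ¬ p ∣ b) : algebraMap K[X][Y] (FractionRing K[X][Y]) a /
      algebraMap K[X][Y] (FractionRing K[X][Y]) b ∈ multiples p := by
  have hinj := IsFractionRing.injective K[X][Y] (FractionRing K[X][Y])
  set q := algebraMap K[X][Y] (FractionRing K[X][Y]) a /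
      algebraMap K[X][Y] (FractionRing K[X][Y]) b with hq
  have hb0 : b ≠ 0 := fun h => hb (by rw [h]; exact dvd_zero p)
  have h1 := IsFractionRing.mk'_num_den' K[X][Y] q
  have hden : (IsFractionRing.den K[X][Y] q : K[X][Y]) ≠ 0 :=
    nonZeroDivisors.ne_zero (IsFractionRing.den K[X][Y] q).2
  have h2 : IsFractionRing.num K[X][Y] q * b = a * (IsFractionRing.den K[X][Y] q : K[X][Y]) := by
    apply hinj
    rw [map_mul, map_mul]
    rw [← div_eq_div_iff]
    · rw [h1]
    · rwa [Ne, map_eq_zero_iff _ hinj]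
    · rwa [Ne, map_eq_zero_iff _ hinj]
  have h3 : p ∣ IsFractionRing.num K[X][Y] q := by
    have h4 : p ∣ IsFractionRing.num K[X][Y] q * b := by
      rw [h2]
      exact ha.mul_right _
    exact (hp.prime.dvd_or_dvd h4).resolve_right hb
  refine ⟨fun h4 => ?_, h3⟩
  exact hp.not_isUnit (IsFractionRing.num_den_reduced K[X][Y] q h3 h4)

open Pool.Agent.X316.FO in
/-- two different good finite orbits give a nontrivial separated multiple -/
theorem not_trivial [IsAlgClosed K] (p : K[X][Y]) (hp : Irreducible p)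
    (hx : 0 < (swap p).natDegree) (hy : 0 < p.natDegree)
    {A1 A2 B1 B2 : Finset K} (H1 : Half p A1 B1) (H1' : Half (swap p) B1 A1) (H2 : Half p A2 B2)
    (H2' : Half (swap p) B2 A2) (hA : Disjoint A1 A2) (hB : Disjoint B1 B2) (hn1 : A1.Nonempty)
    (hn2 : A2.Nonempty) : ¬ IsTrivial p := by
  intro ht
  have hcard : B1.card * A2.card = B2.card * A1.card := by
    have e1 := card_eq H1 H1'
    have e2 := card_eq H2 H2'
    apply Nat.eq_of_mul_eq_mul_right hx
    calc B1.card * A2.card * (swap p).natDegree = (B1.card * (swap p).natDegree) * A2.card := by ring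
      _ = (A2.card * p.natDegree) * A1.card := by rw [← e1]; ring
      _ = B2.card * A1.card * (swap p).natDegree := by rw [e2]; ring
  obtain ⟨c, hc, hdvd⟩ := exists_const p hp hx hy H1 H1' H2 H2' hA hB hcard
  have hD1 : PA A2 ^ A1.card ≠ 0 := pow_ne_zero _ (PA_ne _)
  have hD2 : PA B2 ^ A1.card ≠ 0 := pow_ne_zero _ (PA_ne _)
  have hinj := IsFractionRing.injective K[X][Y] (FractionRing K[X][Y])
  have hmem : ((algebraMap K[X] (RatFunc K) (PA A1 ^ A2.card) /
      algebraMap K[X] (RatFunc K) (PA A2 ^ A1.card),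
      algebraMap K[X] (RatFunc K) (C c * PA B1 ^ A2.card) /
      algebraMap K[X] (RatFunc K) (PA B2 ^ A1.card)) : RatFunc K × RatFunc K) ∈
      sepMultiples p := by
    show inX _ - inY _ ∈ multiples p
    simp only
    rw [inX_div _ _ hD1, inY_div _ _ hD2, div_sub_div]
    · simp only [← map_mul, ← map_sub]
      apply mem_multiples p hp
      · obtain ⟨w, hw⟩ := hdvd
        refine ⟨w, ?_⟩
        rw [← hw, Polynomial.map_mul, Polynomial.map_C]
        ring
      · intro h
        rcases hp.prime.dvd_or_dvd h with h | h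
        · have h2 := natDegree_le_of_dvd h (by simpa using hD1)
          rw [natDegree_C] at h2
          omega
        · have h5 := map_dvd (swap (R := K)) h
          rw [swap_map_C] at h5
          have h2 := natDegree_le_of_dvd h5 (by simpa using hD2)
          rw [natDegree_C] at h2
          omega
    · rw [Ne, map_eq_zero_iff _ hinj, C_eq_zero]
      exact hD1
    · rw [Ne, map_eq_zero_iff _ hinj, Polynomial.map_eq_zero_iff C_injective]
      exact hD2
  obtain ⟨c', hc'⟩ := ht _ hmem
  have h1 := congrArg Prod.fst hc'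
  simp only at h1
  have hDne : algebraMap K[X] (RatFunc K) (PA A2 ^ A1.card) ≠ 0 := by
    rw [Ne, map_eq_zero_iff _ (IsFractionRing.injective K[X] (RatFunc K))]
    exact hD1
  rw [div_eq_iff hDne, ← RatFunc.algebraMap_C, ← map_mul] at h1
  have h2 := IsFractionRing.injective K[X] (RatFunc K) h1
  obtain ⟨a, ha⟩ := hn1
  have h3 := congrArg (eval a) h2
  have h4 : (PA A1).eval a = 0 := by
    rw [PA, eval_prod]
    exact Finset.prod_eq_zero ha (by simp)
  have h5 : (PA A2).eval a ≠ 0 := by
    rw [PA, eval_prod]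
    refine Finset.prod_ne_zero_iff.2 fun b hb => ?_
    rw [eval_sub, eval_X, eval_C, sub_ne_zero]
    rintro rfl
    exact Finset.disjoint_left.1 hA ha hb
  rw [eval_mul, eval_C, eval_pow, eval_pow, h4, zero_pow hn2.card_ne_zero] at h3
  have h6 : c' = 0 := (mul_eq_zero.1 h3.symm).resolve_right (pow_ne_zero _ h5)
  rw [h6, C_0, zero_mul] at h2
  exact pow_ne_zero _ (PA_ne A1) h2

open Pool.Agent.X316.FO in
/-- **Finitely many finite orbits.** Let `K` be algebraically closed of characteristic zero and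
`p ∈ K[x,y]` irreducible, not in `K[x] ∪ K[y]`. If `F(p)` is trivial, then the curve `C` has only
finitely many finite orbits. -/
theorem result {K : Type*} [Field K] [IsAlgClosed K] [CharZero K] (p : K[X][Y])
    (hp : Irreducible p) (hx : ∀ f : K[X], p ≠ C f) (hy : ∀ g : K[X], p ≠ g.map C)
    (ht : IsTrivial p) :
    {O : Set (Curve p) | O.Finite ∧ ∃ P, O = orbit p P}.Finite := by
  classical
  have hy0 : 0 < p.natDegree := by
    rw [Nat.pos_iff_ne_zero]
    intro h
    exact hx _ (eq_C_of_natDegree_eq_zero h)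
  have hx0 : 0 < (swap p).natDegree := by
    rw [Nat.pos_iff_ne_zero]
    intro h
    have h1 := congrArg (swap (R := K)) (eq_C_of_natDegree_eq_zero h)
    rw [swap_swap_apply, swap_C] at h1
    exact hy _ h1
  -- the bad points
  let Bd : Set (Projectivization K (Fin 2 → K) × Projectivization K (Fin 2 → K)) :=
    ({(inf K, inf K)} ∪ (fun b => (inf K, pt b)) '' {b | (swap p).leadingCoeff.eval b = 0}) ∪
    ((fun a => (pt a, inf K)) '' {a | p.leadingCoeff.eval a = 0} ∪
    (fun ab : K × K => (pt ab.1, pt ab.2)) ''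
      ({ab : K × K | p.evalEval ab.1 ab.2 = 0 ∧ (atX ab.1 p).derivative.eval ab.2 = 0} ∪
       {ab : K × K | p.evalEval ab.1 ab.2 = 0 ∧ (atY ab.2 p).derivative.eval ab.1 = 0}))
  have hroots : ∀ q : K[X], q ≠ 0 → {a | q.eval a = 0}.Finite := by
    intro q hq
    refine (q.roots.toFinset.finite_toSet).subset fun a ha => ?_
    rw [Finset.mem_coe, Multiset.mem_toFinset, mem_roots hq]
    exact ha
  have hsw0 : swap p ≠ 0 := fun h => by rw [h, natDegree_zero] at hx0; exact lt_irrefl _ hx0
  have hBd : Bd.Finite := by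
    refine ((Set.finite_singleton _).union ((hroots _ (leadingCoeff_ne_zero.2 hsw0)).image _)).union
      (((hroots _ (leadingCoeff_ne_zero.2 hp.ne_zero)).image _).union
      (((finite_bad p hp hy0).union (finite_bad' p hp hx0)).image _))
  have hBd' : {P : Curve p | P.1 ∈ Bd}.Finite := hBd.preimage Subtype.val_injective.injOn
  by_contra hinf
  have hinf' : {O : Set (Curve p) | O.Finite ∧ ∃ P, O = orbit p P}.Infinite := hinf
  have hgood : ({O : Set (Curve p) | O.Finite ∧ ∃ P, O = orbit p P} \
      (orbit p '' {P : Curve p | P.1 ∈ Bd})).Infinite := hinf'.sdiff (hBd'.image _)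
  obtain ⟨O1, hO1, O2, hO2, hne⟩ := hgood.nontrivial
  have main : ∀ O ∈ ({O : Set (Curve p) | O.Finite ∧ ∃ P, O = orbit p P} \
      (orbit p '' {P : Curve p | P.1 ∈ Bd})), ∃ P0 : Curve p, O = orbit p P0 ∧ ∃ A B : Finset K,
      (∀ a, a ∈ A ↔ ∃ P ∈ orbit p P0, P.1.1 = pt a) ∧
      (∀ b, b ∈ B ↔ ∃ P ∈ orbit p P0, P.1.2 = pt b) ∧ Half p A B ∧ Half (swap p) B A ∧
      A.Nonempty ∧ B.Nonempty := by
    rintro O ⟨⟨hOf, P0, hP0⟩, hnb⟩
    have hnb' : ∀ P ∈ orbit p P0, P.1 ∉ Bd := by
      intro P hP hb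
      exact hnb ⟨P, hb, by rw [hP0]; exact orbit_eq p hP⟩
    refine ⟨P0, hP0, good_orbit p P0 (hP0 ▸ hOf) ?_ ?_⟩
    · rintro ⟨⟨x, y⟩, hxy⟩ hP
      have hnot := hnb' _ hP
      refine ⟨?_, ?_⟩
      · intro h
        simp only at h
        subst h
        apply hnot
        left
        rcases pt_or_inf y with h2 | ⟨b, h2⟩
        · left
          subst h2
          rfl
        · right
          subst h2
          exact ⟨b, (inf_pt_mem p b).1 hxy, rfl⟩
      · intro h
        simp only at h
        subst h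
        apply hnot
        rcases pt_or_inf x with h2 | ⟨a, h2⟩
        · left; left
          subst h2
          rfl
        · right; left
          subst h2
          exact ⟨a, (pt_inf_mem p a).1 hxy, rfl⟩
    · intro a b h hP
      have hnot := hnb' _ hP
      refine ⟨fun h1 => hnot ?_, fun h1 => hnot ?_⟩
      · right; right
        exact ⟨(a, b), Or.inl ⟨(pt_pt_mem p a b).1 h, h1⟩, rfl⟩
      · right; right
        exact ⟨(a, b), Or.inr ⟨(pt_pt_mem p a b).1 h, h1⟩, rfl⟩
  obtain ⟨P1, e1, A1, B1, hA1, hB1, H1, H1', n1, -⟩ := main O1 hO1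
  obtain ⟨P2, e2, A2, B2, hA2, hB2, H2, H2', n2, -⟩ := main O2 hO2
  have hdis : ∀ Q1 ∈ orbit p P1, ∀ Q2 ∈ orbit p P2, ¬ Adj p Q1 Q2 := by
    intro Q1 h1 Q2 h2 hadj
    apply hne
    rw [e1, e2, ← orbit_eq p (orbit_closed p h1 hadj), ← orbit_eq p h2]
  refine not_trivial p hp hx0 hy0 H1 H1' H2 H2' ?_ ?_ n1 n2 ht
  · rw [Finset.disjoint_left]
    intro a ha ha'
    obtain ⟨Q1, hQ1, q1⟩ := (hA1 a).1 ha
    obtain ⟨Q2, hQ2, q2⟩ := (hA2 a).1 ha'
    exact hdis Q1 hQ1 Q2 hQ2 (Or.inl (q1.trans q2.symm))
  · rw [Finset.disjoint_left]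
    intro b hb hb'
    obtain ⟨Q1, hQ1, q1⟩ := (hB1 b).1 hb
    obtain ⟨Q2, hQ2, q2⟩ := (hB2 b).1 hb'
    exact hdis Q1 hQ1 Q2 hQ2 (Or.inr (q1.trans q2.symm))

end Pool.Agent.Results.MP_f5f7dd_ag.FinitelyManyFiniteOrbits
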